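import Mathlib
import Pool.Agent.Q287.BP.Defs
import Pool.Agent.Q287.BP.Rates
import Pool.Agent.Q287.BP.Lower4
import Pool.Agent.Q287.BP.Upper6

open MeasureTheory Set Filter Topology
open scoped NNReal ENNReal

namespace Pool.Agent.Results.MP_e8003b_pr.SpeedNotSuperadditive

open Pool.Agent.Q287.BP

lemma admissible_sum : Admissible (fun x η => b1 x η + b2 x η) where
  measurable := measurable_b12
  bound := ⟨(Icc (-100 : ℝ) 100).indicator (fun _ => 600002), 1,
    fun x => indicator_nonneg (fun _ _ => by norm_num) _, one_pos, integrable_weight _ _, b12_le⟩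
  mono := fun x η ζ h => add_le_add (admissible_b1.mono x η ζ h) (admissible_b2.mono x η ζ h)
  translate := fun x y η => by rw [admissible_b1.translate, admissible_b2.translate]
  reflect := fun x η => by rw [admissible_b1.reflect, admissible_b2.reflect]
  pos := by
    obtain ⟨c, r, hc, hr, h⟩ := admissible_b1.pos
    refine ⟨c, r, hc, hr, fun x η hx => ?_⟩
    have h1 := h x η hx
    have h2 : (0 : ℝ) ≤ (b2 x η : ℝ) := NNReal.coe_nonneg _
    push_cast
    linarith

/-- Question Q1 has a negative answer: in dimension `d = 1` there are admissible birth rates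
`b₁, b₂` such that the speed of propagation of `b₁ + b₂` is strictly smaller than the sum of the
speeds of `b₁` and `b₂`. -/
theorem result : ∃ b₁ b₂ : ℝ → Finset ℝ → ℝ≥0, Admissible b₁ ∧ Admissible b₂ ∧
    Admissible (fun x η => b₁ x η + b₂ x η) ∧
    ∀ s₁ s₂ s : ℝ, IsSpeed b₁ s₁ → IsSpeed b₂ s₂ → IsSpeed (fun x η => b₁ x η + b₂ x η) s →
      s < s₁ + s₂ := by
  refine ⟨b1, b2, admissible_b1, admissible_b2, admissible_sum, fun s₁ s₂ s h₁ h₂ h => ?_⟩
  have e₁ := speed_b1 h₁
  have e₂ := speed_b2 h₂
  have e := speed_b12 h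
  linarith

end Pool.Agent.Results.MP_e8003b_pr.SpeedNotSuperadditive
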